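import Mathlib
import Pool.Agent.Helper27.SUB.T7

set_option autoImplicit false

namespace Pool.Agent.Results.MP_9206b6_nt.FewWindows

/-- Integral relations between zeta(k) and double zeta values zeta(r, k-r), r in W, where W is
covered by at most t intervals [x, (1 + eps) x], all coefficients c_r are nonzero, of absolute
value at most exp(eps r), and change sign essentially at most t times: there is a nondecreasing
g : W -> {0, ..., t} such that for every r in W either (-1)^g(r) c_r > 0 or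
|c_r| <= t^(r - r') |c_r'| for some r' < r in W with g(r') = g(r) and (-1)^g(r') c_r' > 0.
If all r in W are at least R, where eps and R depend only on t, then W is empty and c_0 = 0. -/
theorem result : ∀ t : ℕ, ∃ (ε : ℝ) (R : ℕ), 0 < ε ∧ 2 ≤ R ∧
    ∀ (k : ℕ) (W : Finset ℕ) (X : Finset ℝ) (c : ℕ → ℤ) (c0 : ℤ) (g : ℕ → ℕ),
    2 ≤ k → X.card ≤ t →
    (∀ r ∈ W, R ≤ r ∧ r < k ∧ c r ≠ 0 ∧ |(c r : ℝ)| ≤ Real.exp (ε * r) ∧
      ∃ x ∈ X, x ≤ r ∧ (r : ℝ) ≤ (1 + ε) * x) →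
    (∀ r ∈ W, g r ≤ t) → MonotoneOn g W →
    (∀ r ∈ W, 0 < (-1) ^ (g r) * c r ∨
      ∃ r' ∈ W, r' < r ∧ g r' = g r ∧ 0 < (-1) ^ (g r') * c r' ∧
        |c r| ≤ (t : ℤ) ^ (r - r') * |c r'|) →
    ∑ r ∈ W, (c r : ℝ) * ∑' p : ℕ × ℕ,
        (1 : ℝ) / ((((p.1 + p.2 + 2 : ℕ) : ℝ) ^ r) * (((p.2 + 1 : ℕ) : ℝ) ^ (k - r))) =
      c0 * ∑' n : ℕ, (1 : ℝ) / ((n + 1 : ℕ) : ℝ) ^ k →
    W = ∅ ∧ c0 = 0 :=
  Pool.Agent.Helper27.SUB.fewWindows

end Pool.Agent.Results.MP_9206b6_nt.FewWindows
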