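import Mathlib
import Pool.Agent.Helper33.DZ.All

set_option autoImplicit false

namespace Pool.Agent.Results.MP_9206b6_nt.Generators

open Pool.Agent.Helper33.DZ

/-- Let `k = 2m` and `d` the dimension of the space of cusp forms of weight `k`. From the numbers
`ζ(k)` and, for odd `r`, `3 ≤ r ≤ k-3`, `ζ(r, k-r)` or (for `r ≤ m` not in `T`) `ζ(r) ζ(k-r)`, leave
out those with `r` in a set `C` of at most `d` elements of different levels, such that for `r` in
`C` with `r ≤ m` or `k-r` in `T` all smaller levels occur in `C`. The others still span over `ℚ` the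
span of all double zeta values of weight `k` with odd arguments; and if `C` has `d` elements, then
the dimension has the conjectured value if and only if they are linearly independent. -/
theorem result (m : ℕ) (hm : 2 ≤ m) (T C : Finset ℕ)
    (hC : ∀ r ∈ C, Odd r ∧ 5 ≤ r ∧ r + 3 ≤ 2 * m)
    (hinj : ∀ r ∈ C, ∀ r' ∈ C, lev m r = lev m r' → r = r')
    (hcard : C.card ≤ dS m)
    (hcov : ∀ r ∈ C, (r ≤ m ∨ 2 * m - r ∈ T) → ∀ l, 1 ≤ l → l < lev m r →
      ∃ r' ∈ C, lev m r' = l) :
    VV m = Submodule.span ℚ (YY m T '' ((OO m \ C : Finset ℕ) : Set ℕ)) ∧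
    (C.card = dS m → (Module.finrank ℚ (VV m) + dS m = m - 1 ↔
      LinearIndependent ℚ (fun r : (OO m \ C : Finset ℕ) => YY m T r))) :=
  all_G m hm T C hC hinj hcard hcov

end Pool.Agent.Results.MP_9206b6_nt.Generators
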