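import Mathlib
import Pool.Agent.Helper46.HB.C

set_option autoImplicit false

namespace Pool.Agent.Results.MP_9206b6_nt.HeightBoundLinear

/-- Integral relations between the zeta value zeta(k) and the double zeta values
zeta(k-s, s), s = 1, ..., S (larger summation variable first): if all coefficients have
absolute value at most H and not all are zero, then k <= C S log(2H), with one absolute
constant C. -/
theorem result : ∃ C : ℝ, ∀ (k S : ℕ) (c0 : ℤ) (c : ℕ → ℤ) (H : ℝ),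
    1 ≤ S → S + 2 ≤ k → (c0 ≠ 0 ∨ ∃ s ∈ Finset.Icc 1 S, c s ≠ 0) →
    |(c0 : ℝ)| ≤ H → (∀ s ∈ Finset.Icc 1 S, |(c s : ℝ)| ≤ H) →
    ∑ s ∈ Finset.Icc 1 S, (c s : ℝ) * ∑' p : ℕ × ℕ,
        (1 : ℝ) / ((((p.1 + p.2 + 2 : ℕ) : ℝ) ^ (k - s)) * (((p.2 + 1 : ℕ) : ℝ) ^ s)) =
      c0 * ∑' n : ℕ, (1 : ℝ) / ((n + 1 : ℕ) : ℝ) ^ k →
    (k : ℝ) ≤ C * S * Real.log (2 * H) :=
  Pool.Agent.Helper43.OD.height_bound_linear

end Pool.Agent.Results.MP_9206b6_nt.HeightBoundLinear
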