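import Mathlib
import Pool.Agent.Helper43.SF.All

set_option autoImplicit false

namespace Pool.Agent.Results.MP_9206b6_nt.SumFormula

open Polynomial

/-- Uniqueness of the sum formula.  Let P be a real polynomial in two variables, q, alpha_1, ...,
alpha_d, beta_1, ..., beta_d real polynomials in one variable.  Suppose that for infinitely
many m the relation
sum_(1 <= a < m) P(2a+1, 2m) zeta(2a+1, 2m-2a-1)
+ sum_(a <= d) alpha_a(2m) zeta(2a+1, 2m-2a-1) + sum_(b <= d) beta_b(2m) zeta(2m-2b+1, 2b-1)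
= q(2m) zeta(2m)
holds.  Then P(x, y) = 4 q(y) for all x, y, and all alpha_a and beta_b are zero. -/
theorem result : ∀ (P : ℝ[X][X]) (q : ℝ[X]) (d : ℕ) (α β : ℕ → ℝ[X]),
    {m : ℕ | ∑ a ∈ Finset.Icc 1 (m - 1), P.evalEval ((2 * a + 1 : ℕ) : ℝ) ((2 * m : ℕ) : ℝ) *
          (∑' p : ℕ × ℕ, (1 : ℝ) / ((((p.1 + p.2 + 2 : ℕ) : ℝ) ^ (2 * a + 1)) *
            (((p.2 + 1 : ℕ) : ℝ) ^ (2 * m - (2 * a + 1)))))
        + ∑ a ∈ Finset.Icc 1 d, (α a).eval ((2 * m : ℕ) : ℝ) *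
          (∑' p : ℕ × ℕ, (1 : ℝ) / ((((p.1 + p.2 + 2 : ℕ) : ℝ) ^ (2 * a + 1)) *
            (((p.2 + 1 : ℕ) : ℝ) ^ (2 * m - (2 * a + 1)))))
        + ∑ b ∈ Finset.Icc 1 d, (β b).eval ((2 * m : ℕ) : ℝ) *
          (∑' p : ℕ × ℕ, (1 : ℝ) / ((((p.1 + p.2 + 2 : ℕ) : ℝ) ^ (2 * m - (2 * b - 1))) *
            (((p.2 + 1 : ℕ) : ℝ) ^ (2 * b - 1))))
        = q.eval ((2 * m : ℕ) : ℝ) * ∑' n : ℕ, (1 : ℝ) / ((n + 1 : ℕ) : ℝ) ^ (2 * m)}.Infinite →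
    (∀ x y : ℝ, P.evalEval x y = 4 * q.eval y) ∧
    (∀ a ∈ Finset.Icc 1 d, α a = 0) ∧ (∀ b ∈ Finset.Icc 1 d, β b = 0) := by
  intro P q d α β hinf
  exact Pool.Agent.Helper43.SF.all_MAIN P q d α β hinf

end Pool.Agent.Results.MP_9206b6_nt.SumFormula
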